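import Mathlib

/-!
# Core combinatorial lemma for the disproof of the tree-cover conjecture

Points: `Fin m × ZMod q`; lines of slope `i` and intercept `z`: points `(k, z + i k)`.
-/

set_option autoImplicit false

namespace Pool.Agent.H42.TreeCover

open Finset

variable {q m l : ℕ}

/-- The intercept of the line of slope `i` through the point `ω`. -/
def L (q m : ℕ) (i : ZMod q) (ω : Fin m × ZMod q) : ZMod q := ω.2 - i * ((ω.1 : ℕ) : ZMod q)

/-- values of colour `j` taken on `X` and not forbidden -/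
def N (T : Fin l × ZMod q → Finset (ZMod q)) (j : Fin l × ZMod q)
    (X : Finset (Fin m × ZMod q)) : Finset (ZMod q) :=
  (X.image (L q m j.2)) \ T j

lemma N_union (T : Fin l × ZMod q → Finset (ZMod q)) (j : Fin l × ZMod q)
    (X Y : Finset (Fin m × ZMod q)) : N T j (X ∪ Y) = N T j X ∪ N T j Y := by
  simp [N, image_union, union_sdiff_distrib]

lemma N_empty (T : Fin l × ZMod q → Finset (ZMod q)) (j : Fin l × ZMod q) :
    N T j (∅ : Finset (Fin m × ZMod q)) = ∅ := by
  simp [N]

lemma N_mono (T : Fin l × ZMod q → Finset (ZMod q)) (j : Fin l × ZMod q)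
    {X Y : Finset (Fin m × ZMod q)} (h : X ⊆ Y) : N T j X ⊆ N T j Y := by
  unfold N
  exact sdiff_subset_sdiff (image_subset_image h) (le_refl _)

lemma N_card_le (T : Fin l × ZMod q → Finset (ZMod q)) (j : Fin l × ZMod q)
    (X : Finset (Fin m × ZMod q)) : (N T j X).card ≤ X.card :=
  (card_le_card sdiff_subset).trans card_image_le

/-- survival probability of the set `X` -/
noncomputable def s [NeZero q] (T : Fin l × ZMod q → Finset (ZMod q))
    (X : Finset (Fin m × ZMod q)) : ℝ :=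
  ∏ j : Fin l × ZMod q, (1 - ((N T j X).card : ℝ) / q)

open Classical in
/-- indicator that `X` survives the first phase `a` -/
noncomputable def I (T : Fin l × ZMod q → Finset (ZMod q)) (X : Finset (Fin m × ZMod q))
    (a : Fin l × ZMod q → ZMod q) : ℝ :=
  if ∀ j, a j ∉ N T j X then 1 else 0

lemma I_nonneg (T : Fin l × ZMod q → Finset (ZMod q)) (X : Finset (Fin m × ZMod q))
    (a : Fin l × ZMod q → ZMod q) : 0 ≤ I T X a := by
  unfold I; split_ifs <;> norm_num

lemma I_mul (T : Fin l × ZMod q → Finset (ZMod q)) (X Y : Finset (Fin m × ZMod q))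
    (a : Fin l × ZMod q → ZMod q) : I T X a * I T Y a = I T (X ∪ Y) a := by
  have key : (∀ j, a j ∉ N T j (X ∪ Y)) ↔ (∀ j, a j ∉ N T j X) ∧ (∀ j, a j ∉ N T j Y) := by
    simp only [N_union, mem_union, not_or]
    exact ⟨fun h => ⟨fun j => (h j).1, fun j => (h j).2⟩, fun h j => ⟨h.1 j, h.2 j⟩⟩
  unfold I
  by_cases h1 : ∀ j, a j ∉ N T j X
  · by_cases h2 : ∀ j, a j ∉ N T j Y
    · rw [if_pos h1, if_pos h2, if_pos (key.2 ⟨h1, h2⟩), mul_one]
    · rw [if_neg h2, if_neg (fun h => h2 (key.1 h).2), mul_zero]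
  · rw [if_neg h1, if_neg (fun h => h1 (key.1 h).1), zero_mul]

/-- expectation over the uniformly random first phase -/
noncomputable def Ex [NeZero q] (f : (Fin l × ZMod q → ZMod q) → ℝ) : ℝ :=
  (∑ a, f a) / (Fintype.card (Fin l × ZMod q → ZMod q) : ℝ)

lemma card_pos' [NeZero q] : (0 : ℝ) < (Fintype.card (Fin l × ZMod q → ZMod q) : ℝ) := by
  exact_mod_cast Fintype.card_pos

lemma Ex_I [NeZero q] (T : Fin l × ZMod q → Finset (ZMod q)) (X : Finset (Fin m × ZMod q)) :
    Ex (I T X) = s T X := by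
  classical
  have h1 : ∑ a, I T X a = ∑ a : Fin l × ZMod q → ZMod q,
      ∏ j, (if a j ∉ N T j X then (1 : ℝ) else 0) := by
    apply Finset.sum_congr rfl
    intro a _
    unfold I
    by_cases h : ∀ j, a j ∉ N T j X
    · rw [if_pos h]
      symm
      apply Finset.prod_eq_one
      intro j _
      rw [if_pos (h j)]
    · rw [if_neg h]
      push Not at h
      obtain ⟨j, hj⟩ := h
      symm
      apply Finset.prod_eq_zero (mem_univ j)
      simp [hj]
  have h2 := Finset.prod_univ_sum (fun _ : Fin l × ZMod q => (Finset.univ : Finset (ZMod q)))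
    (fun j z => if z ∉ N T j X then (1 : ℝ) else 0)
  rw [Fintype.piFinset_univ] at h2
  have hq : (q : ℝ) ≠ 0 := by exact_mod_cast NeZero.ne q
  unfold Ex
  rw [h1, ← h2]
  have h3 : (Fintype.card (Fin l × ZMod q → ZMod q) : ℝ) = ∏ _j : Fin l × ZMod q, (q : ℝ) := by
    rw [Fintype.card_fun, ZMod.card, Finset.prod_const, Finset.card_univ]
    push_cast
    rfl
  rw [h3, ← Finset.prod_div_distrib]
  unfold s
  apply Finset.prod_congr rfl
  intro j _
  have h4 : ∑ z : ZMod q, (if z ∉ N T j X then (1 : ℝ) else 0) = q - (N T j X).card := by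
    have h5 : ∀ z : ZMod q, (if z ∉ N T j X then (1 : ℝ) else 0) =
        1 - (if z ∈ N T j X then (1 : ℝ) else 0) := by
      intro z; by_cases h : z ∈ N T j X <;> simp [h]
    rw [Finset.sum_congr rfl (fun z _ => h5 z), Finset.sum_sub_distrib]
    simp [ZMod.card]
  rw [h4, sub_div, div_self hq]


/-! ### Geometry of lines -/

lemma cast_inj_fin (hm : m ≤ q) {k k' : Fin m} (h : ((k : ℕ) : ZMod q) = ((k' : ℕ) : ZMod q)) :
    k = k' := by
  rw [ZMod.natCast_eq_natCast_iff'] at h
  rw [Nat.mod_eq_of_lt (lt_of_lt_of_le k.2 hm), Nat.mod_eq_of_lt (lt_of_lt_of_le k'.2 hm)] at h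
  exact Fin.ext h

/-- two different slopes and the corresponding intercepts determine the point -/
lemma point_unique [Fact q.Prime] (hm : m ≤ q) {i i' : ZMod q} (hi : i ≠ i')
    {x y : Fin m × ZMod q} (h1 : L q m i x = L q m i y) (h2 : L q m i' x = L q m i' y) :
    x = y := by
  unfold L at h1 h2
  have h3 : (i - i') * (((x.1 : ℕ) : ZMod q) - ((y.1 : ℕ) : ZMod q)) = 0 := by
    linear_combination h2 - h1
  rcases mul_eq_zero.1 h3 with h | h
  · exact absurd (sub_eq_zero.1 h) hi
  · have hk : x.1 = y.1 := cast_inj_fin hm (sub_eq_zero.1 h)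
    have h4 : x.2 = y.2 := by
      rw [hk] at h1
      linear_combination h1
    exact Prod.ext hk h4

lemma codeg_le_one [Fact q.Prime] (hm : m ≤ q) {x y : Fin m × ZMod q} (hxy : x ≠ y) :
    (Finset.univ.filter (fun i : ZMod q => L q m i x = L q m i y)).card ≤ 1 := by
  rw [Finset.card_le_one]
  intro i hi i' hi'
  rw [mem_filter] at hi hi'
  by_contra h
  exact hxy (point_unique hm h hi.2 hi'.2)

lemma codeg_le [Fact q.Prime] (hm : m ≤ q) {x y : Fin m × ZMod q} (hxy : x ≠ y) :
    (Finset.univ.filter (fun j : Fin l × ZMod q => L q m j.2 x = L q m j.2 y)).card ≤ l := by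
  have h1 : (Finset.univ.filter (fun j : Fin l × ZMod q => L q m j.2 x = L q m j.2 y)) =
      (Finset.univ : Finset (Fin l)) ×ˢ
        (Finset.univ.filter (fun i : ZMod q => L q m i x = L q m i y)) := by
    ext ⟨f, i⟩
    simp
  rw [h1, card_product, card_univ, Fintype.card_fin]
  have := codeg_le_one hm hxy
  nlinarith

/-- extra coincidences of two sets for colour `j` -/
lemma coincidence_le [Fact q.Prime] (T : Fin l × ZMod q → Finset (ZMod q))
    (X Y P : Finset (Fin m × ZMod q)) (hXY : X ∩ Y = P) (hP : P.card ≤ 1)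
    (j : Fin l × ZMod q) :
    ((N T j X ∩ N T j Y) \ N T j P).card ≤
      ((X ×ˢ Y).filter (fun p => p.1 ≠ p.2 ∧ L q m j.2 p.1 = L q m j.2 p.2)).card := by
  have hsub : (N T j X ∩ N T j Y) \ N T j P ⊆
      ((X ×ˢ Y).filter (fun p => p.1 ≠ p.2 ∧ L q m j.2 p.1 = L q m j.2 p.2)).image
        (fun p => L q m j.2 p.1) := by
    intro z hz
    simp only [N, mem_sdiff, mem_inter, mem_image, not_and, not_not] at hz
    obtain ⟨⟨⟨⟨x, hx, hxz⟩, hT⟩, ⟨⟨y, hy, hyz⟩, _⟩⟩, hno⟩ := hz
    rw [mem_image]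
    refine ⟨(x, y), ?_, hxz⟩
    rw [mem_filter, mem_product]
    refine ⟨⟨hx, hy⟩, ?_, hxz.trans hyz.symm⟩
    rintro (rfl : x = y)
    exact hT (hno ⟨x, by rw [← hXY]; exact mem_inter.2 ⟨hx, hy⟩, hxz⟩)
  exact (card_le_card hsub).trans card_image_le

lemma sum_coincidence_le [Fact q.Prime] (hm : m ≤ q) (T : Fin l × ZMod q → Finset (ZMod q))
    (X Y P : Finset (Fin m × ZMod q)) (hXY : X ∩ Y = P) (hP : P.card ≤ 1)
    (hX : X.card ≤ m) (hY : Y.card ≤ m) :
    ∑ j : Fin l × ZMod q, ((N T j X ∩ N T j Y) \ N T j P).card ≤ l * m ^ 2 := by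
  calc ∑ j : Fin l × ZMod q, ((N T j X ∩ N T j Y) \ N T j P).card
      ≤ ∑ j : Fin l × ZMod q,
        ((X ×ˢ Y).filter (fun p => p.1 ≠ p.2 ∧ L q m j.2 p.1 = L q m j.2 p.2)).card :=
        Finset.sum_le_sum (fun j _ => coincidence_le T X Y P hXY hP j)
    _ = ∑ j : Fin l × ZMod q, ∑ p ∈ X ×ˢ Y,
        (if p.1 ≠ p.2 ∧ L q m j.2 p.1 = L q m j.2 p.2 then 1 else 0) := by
        apply Finset.sum_congr rfl
        intro j _
        rw [Finset.card_filter]
    _ = ∑ p ∈ X ×ˢ Y, ∑ j : Fin l × ZMod q,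
        (if p.1 ≠ p.2 ∧ L q m j.2 p.1 = L q m j.2 p.2 then 1 else 0) := Finset.sum_comm
    _ ≤ ∑ p ∈ X ×ˢ Y, l := by
        apply Finset.sum_le_sum
        intro p _
        by_cases hp : p.1 = p.2
        · simp [hp]
        · rw [← Finset.card_filter]
          have := codeg_le (l := l) hm hp
          refine le_trans (card_le_card ?_) this
          intro j hj
          rw [mem_filter] at hj ⊢
          exact ⟨hj.1, hj.2.2⟩
    _ = (X.card * Y.card) * l := by rw [Finset.sum_const, card_product, smul_eq_mul]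
    _ ≤ l * m ^ 2 := by
        have : X.card * Y.card ≤ m * m := Nat.mul_le_mul hX hY
        nlinarith

lemma factor_ineq {x y u g Q : ℝ} (hQ : 0 < Q) (hu : u = 0 ∨ u = 1) (hux : u ≤ x) (huy : u ≤ y)
    (hg : 0 ≤ g) (hx : 2 * x ≤ Q) (hy : 2 * y ≤ Q) :
    (1 - (x + y - u - g) / Q) * (1 - u / Q) ≤
      (1 - x / Q) * (1 - y / Q) * Real.exp (4 * g / Q) := by
  have hx' : 1 / 2 ≤ 1 - x / Q := by
    rw [le_sub_comm, div_le_iff₀ hQ]; linarith
  have hy' : 1 / 2 ≤ 1 - y / Q := by
    rw [le_sub_comm, div_le_iff₀ hQ]; linarith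
  have hprod : 1 / 4 ≤ (1 - x / Q) * (1 - y / Q) := by nlinarith
  have hexp : 1 + 4 * g / Q ≤ Real.exp (4 * g / Q) := by
    have := Real.add_one_le_exp (4 * g / Q); linarith
  have hg' : 0 ≤ g / Q := div_nonneg hg hQ.le
  have h1 : (1 - (x + y - u - g) / Q) * (1 - u / Q) ≤ (1 - x / Q) * (1 - y / Q) + g / Q := by
    have h2 : (1 - x / Q) * (1 - y / Q) + g / Q - (1 - (x + y - u - g) / Q) * (1 - u / Q) =
        (x * y - u * (x + y - u - g)) / Q ^ 2 := by
      rcases hu with rfl | rfl <;> field_simp <;> ring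
    have h3 : 0 ≤ (x * y - u * (x + y - u - g)) / Q ^ 2 := by
      apply div_nonneg _ (by positivity)
      rcases hu with rfl | rfl
      · have : 0 ≤ x * y := mul_nonneg hux huy
        linarith
      · have : 0 ≤ (x - 1) * (y - 1) := mul_nonneg (by linarith) (by linarith)
        nlinarith
    linarith
  calc (1 - (x + y - u - g) / Q) * (1 - u / Q) ≤ (1 - x / Q) * (1 - y / Q) + g / Q := h1
    _ ≤ (1 - x / Q) * (1 - y / Q) + (1 - x / Q) * (1 - y / Q) * (4 * (g / Q)) := by nlinarith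
    _ = (1 - x / Q) * (1 - y / Q) * (1 + 4 * g / Q) := by ring
    _ ≤ (1 - x / Q) * (1 - y / Q) * Real.exp (4 * g / Q) := by
        apply mul_le_mul_of_nonneg_left hexp; linarith

lemma s_union_le [Fact q.Prime] (hm : 2 * m ≤ q) (T : Fin l × ZMod q → Finset (ZMod q))
    (X Y P : Finset (Fin m × ZMod q)) (hXY : X ∩ Y = P) (hP : P.card ≤ 1)
    (hX : X.card ≤ m) (hY : Y.card ≤ m) :
    s T (X ∪ Y) * s T P ≤ s T X * s T Y * Real.exp (4 * (l * m ^ 2) / q) := by
  have hqpos : (0 : ℝ) < q := by exact_mod_cast (Fact.out : q.Prime).pos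
  have hPX : P ⊆ X := by rw [← hXY]; exact inter_subset_left
  have hPY : P ⊆ Y := by rw [← hXY]; exact inter_subset_right
  have hmq : (2 * m : ℝ) ≤ q := by exact_mod_cast hm
  set g : Fin l × ZMod q → ℝ := fun j => (((N T j X ∩ N T j Y) \ N T j P).card : ℝ) with hg
  have hsum : ∑ j, g j ≤ l * m ^ 2 := by
    have := sum_coincidence_le (l := l) (by omega) T X Y P hXY hP hX hY
    simp only [hg]
    exact_mod_cast this
  have hstep : s T (X ∪ Y) * s T P ≤ ∏ j : Fin l × ZMod q,
      ((1 - ((N T j X).card : ℝ) / q) * (1 - ((N T j Y).card : ℝ) / q) *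
        Real.exp (4 * g j / q)) := by
    unfold s
    rw [← Finset.prod_mul_distrib]
    apply Finset.prod_le_prod
    · intro j _
      have h1 : ((N T j (X ∪ Y)).card : ℝ) ≤ q := by
        have h2 := N_card_le T j (X ∪ Y)
        have h3 := card_union_le X Y
        have : (N T j (X ∪ Y)).card ≤ q := by omega
        exact_mod_cast this
      have h4 : ((N T j P).card : ℝ) ≤ q := by
        have h2 := N_card_le T j P
        have h5 := (Fact.out : q.Prime).pos
        have : (N T j P).card ≤ q := by omega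
        exact_mod_cast this
      apply mul_nonneg
      · rw [sub_nonneg, div_le_one hqpos]; exact h1
      · rw [sub_nonneg, div_le_one hqpos]; exact h4
    · intro j _
      have hsub : N T j P ⊆ N T j X ∩ N T j Y :=
        subset_inter (N_mono T j hPX) (N_mono T j hPY)
      have hc1 : ((N T j (X ∪ Y)).card : ℝ) =
          (N T j X).card + (N T j Y).card - (N T j P).card - g j := by
        have h1 := card_union_add_card_inter (N T j X) (N T j Y)
        have h2 := card_sdiff_add_card_eq_card hsub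
        rw [N_union]
        simp only [hg]
        have h3 : ((N T j X ∪ N T j Y).card : ℝ) + ((N T j X ∩ N T j Y).card : ℝ) =
          (N T j X).card + (N T j Y).card := by exact_mod_cast h1
        have h4 : (((N T j X ∩ N T j Y) \ N T j P).card : ℝ) + ((N T j P).card : ℝ) =
          ((N T j X ∩ N T j Y).card : ℝ) := by exact_mod_cast h2
        linarith
      rw [hc1]
      have hX2 : ((N T j X).card : ℝ) ≤ m := by exact_mod_cast (N_card_le T j X).trans hX
      have hY2 : ((N T j Y).card : ℝ) ≤ m := by exact_mod_cast (N_card_le T j Y).trans hY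
      apply factor_ineq hqpos
      · have : (N T j P).card ≤ 1 := (N_card_le T j P).trans hP
        interval_cases h : (N T j P).card
        · left; norm_num
        · right; norm_num
      · exact_mod_cast card_le_card (N_mono T j hPX)
      · exact_mod_cast card_le_card (N_mono T j hPY)
      · simp only [hg]; positivity
      · linarith
      · linarith
  refine hstep.trans ?_
  rw [Finset.prod_mul_distrib, Finset.prod_mul_distrib, ← Real.exp_sum]
  have hXs : 0 ≤ s T X := by
    rw [← Ex_I]; unfold Ex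
    exact div_nonneg (Finset.sum_nonneg (fun a _ => I_nonneg T X a)) (card_pos' (l := l)).le
  have hYs : 0 ≤ s T Y := by
    rw [← Ex_I]; unfold Ex
    exact div_nonneg (Finset.sum_nonneg (fun a _ => I_nonneg T Y a)) (card_pos' (l := l)).le
  have h5 : Real.exp (∑ j, 4 * g j / q) ≤ Real.exp (4 * (l * m ^ 2) / q) := by
    apply Real.exp_le_exp.2
    rw [← Finset.sum_div, ← Finset.mul_sum]
    apply div_le_div_of_nonneg_right _ hqpos.le
    linarith
  exact mul_le_mul_of_nonneg_left h5 (mul_nonneg hXs hYs)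


/-! ### Expectation -/

section expectation

variable [NeZero q]

lemma Ex_add (f g : (Fin l × ZMod q → ZMod q) → ℝ) :
    Ex (fun a => f a + g a) = Ex f + Ex g := by
  unfold Ex; rw [Finset.sum_add_distrib, add_div]

lemma Ex_sub (f g : (Fin l × ZMod q → ZMod q) → ℝ) :
    Ex (fun a => f a - g a) = Ex f - Ex g := by
  unfold Ex; rw [Finset.sum_sub_distrib, sub_div]

lemma Ex_mul_left (c : ℝ) (f : (Fin l × ZMod q → ZMod q) → ℝ) :
    Ex (fun a => c * f a) = c * Ex f := by
  unfold Ex; rw [← Finset.mul_sum, mul_div_assoc]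

lemma Ex_const (c : ℝ) : Ex (fun _ : Fin l × ZMod q → ZMod q => c) = c := by
  unfold Ex
  rw [Finset.sum_const, nsmul_eq_mul, card_univ]
  field_simp [(card_pos' (l := l) (q := q)).ne']

lemma Ex_sum {ι : Type*} (S : Finset ι) (f : ι → (Fin l × ZMod q → ZMod q) → ℝ) :
    Ex (fun a => ∑ i ∈ S, f i a) = ∑ i ∈ S, Ex (f i) := by
  unfold Ex; rw [Finset.sum_comm, Finset.sum_div]

lemma Ex_mono {f g : (Fin l × ZMod q → ZMod q) → ℝ} (h : ∀ a, f a ≤ g a) : Ex f ≤ Ex g := by
  unfold Ex
  exact div_le_div_of_nonneg_right (Finset.sum_le_sum (fun a _ => h a)) card_pos'.le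

lemma Ex_exists_le (f : (Fin l × ZMod q → ZMod q) → ℝ) : ∃ a, f a ≤ Ex f := by
  by_contra h
  push Not at h
  have h1 : ∑ a : Fin l × ZMod q → ZMod q, Ex f < ∑ a, f a :=
    Finset.sum_lt_sum_of_nonempty univ_nonempty (fun a _ => h a)
  rw [Finset.sum_const, nsmul_eq_mul, card_univ] at h1
  have h2 : (Fintype.card (Fin l × ZMod q → ZMod q) : ℝ) * Ex f = ∑ a, f a := by
    unfold Ex; field_simp [(card_pos' (l := l) (q := q)).ne']
  linarith

end expectation

/-! ### Lines and survival weights -/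

/-- the line of slope `i` and intercept `z` -/
def S (q m : ℕ) [NeZero q] (i z : ZMod q) : Finset (Fin m × ZMod q) :=
  Finset.univ.filter (fun ω => L q m i ω = z)

lemma mem_S [NeZero q] {i z : ZMod q} {ω : Fin m × ZMod q} : ω ∈ S q m i z ↔ L q m i ω = z := by
  simp [S]

lemma S_card_le [NeZero q] (i z : ZMod q) : (S q m i z).card ≤ m := by
  have h : (S q m i z).card ≤ (Finset.univ : Finset (Fin m)).card := by
    apply Finset.card_le_card_of_injOn (fun ω => ω.1) (fun _ _ => Finset.mem_coe.2 (mem_univ _))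
    intro x hx y hy hxy
    rw [Finset.mem_coe, mem_S] at hx hy
    have hxy' : x.1 = y.1 := hxy
    have : x.2 = y.2 := by
      unfold L at hx hy
      rw [hxy'] at hx
      linear_combination hx - hy
    exact Prod.ext hxy' this
  simpa using h

lemma exp_neg_two_mul_le {x : ℝ} (h0 : 0 ≤ x) (h1 : x ≤ 1 / 2) : Real.exp (-(2 * x)) ≤ 1 - x := by
  have h2 : 1 + 2 * x ≤ Real.exp (2 * x) := by
    have := Real.add_one_le_exp (2 * x); linarith
  rw [Real.exp_neg, inv_le_comm₀ (Real.exp_pos _) (by linarith)]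
  refine le_trans ?_ h2
  rw [inv_le_comm₀ (by linarith) (by linarith), inv_le_iff_one_le_mul₀ (by linarith)]
  nlinarith

/-- uniform lower bound for survival probabilities of small sets -/
lemma s_lower [NeZero q] (hm : 2 * m ≤ q) (T : Fin l × ZMod q → Finset (ZMod q))
    (X : Finset (Fin m × ZMod q)) (hX : X.card ≤ m) :
    Real.exp (-(2 * m * l : ℝ)) ≤ s T X := by
  have hqpos : (0 : ℝ) < q := by exact_mod_cast NeZero.pos q
  have hmq : (2 * m : ℝ) ≤ q := by exact_mod_cast hm
  have h1 : Real.exp (-(2 * m * l : ℝ)) =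
      ∏ _j : Fin l × ZMod q, Real.exp (-(2 * ((m : ℝ) / q))) := by
    rw [Finset.prod_const, ← Real.exp_nat_mul, card_univ, Fintype.card_prod, Fintype.card_fin,
      ZMod.card]
    congr 1
    push_cast
    field_simp
  rw [h1]
  unfold s
  apply Finset.prod_le_prod
  · intro j _; exact (Real.exp_pos _).le
  · intro j _
    have h2 : ((N T j X).card : ℝ) ≤ m := by exact_mod_cast (N_card_le T j X).trans hX
    have h3 : (m : ℝ) / q ≤ 1 / 2 := by rw [div_le_iff₀ hqpos]; linarith
    refine (exp_neg_two_mul_le (by positivity) h3).trans ?_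
    have : ((N T j X).card : ℝ) / q ≤ (m : ℝ) / q := div_le_div_of_nonneg_right h2 hqpos.le
    linarith

lemma s_le_one [NeZero q] (T : Fin l × ZMod q → Finset (ZMod q))
    (X : Finset (Fin m × ZMod q)) : s T X ≤ 1 := by
  rw [← Ex_I]
  calc Ex (I T X) ≤ Ex (fun _ => (1 : ℝ)) := by
        apply Ex_mono
        intro a; unfold I; split_ifs <;> norm_num
    _ = 1 := Ex_const 1

/-- normalised survival indicator of a line -/
noncomputable def w [NeZero q] (T : Fin l × ZMod q → Finset (ZMod q)) (m : ℕ) (i z : ZMod q)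
    (a : Fin l × ZMod q → ZMod q) : ℝ :=
  I T (S q m i z) a / s T (S q m i z)

lemma sS_pos [NeZero q] (hm : 2 * m ≤ q) (T : Fin l × ZMod q → Finset (ZMod q)) (i z : ZMod q) :
    0 < s T (S q m i z) :=
  lt_of_lt_of_le (Real.exp_pos _) (s_lower hm T _ (S_card_le i z))

lemma w_nonneg [NeZero q] (hm : 2 * m ≤ q) (T : Fin l × ZMod q → Finset (ZMod q)) (i z : ZMod q)
    (a : Fin l × ZMod q → ZMod q) : 0 ≤ w T m i z a :=
  div_nonneg (I_nonneg _ _ _) (sS_pos hm T i z).le

lemma w_le [NeZero q] (hm : 2 * m ≤ q) (T : Fin l × ZMod q → Finset (ZMod q)) (i z : ZMod q)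
    (a : Fin l × ZMod q → ZMod q) : w T m i z a ≤ Real.exp (2 * m * l : ℝ) := by
  unfold w
  have h1 := s_lower hm T _ (S_card_le (m := m) i z)
  have h2 : I T (S q m i z) a ≤ 1 := by unfold I; split_ifs <;> norm_num
  rw [div_le_iff₀ (sS_pos hm T i z)]
  have h3 : Real.exp (2 * m * l : ℝ) * Real.exp (-(2 * m * l : ℝ)) = 1 := by
    rw [← Real.exp_add]; simp
  have h4 : Real.exp (2 * m * l : ℝ) * Real.exp (-(2 * m * l : ℝ)) ≤
      Real.exp (2 * m * l : ℝ) * s T (S q m i z) :=
    mul_le_mul_of_nonneg_left h1 (Real.exp_pos _).le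
  linarith

lemma Ex_w [NeZero q] (hm : 2 * m ≤ q) (T : Fin l × ZMod q → Finset (ZMod q)) (i z : ZMod q) :
    Ex (w T m i z) = 1 := by
  have h1 : w T m i z = fun a => (s T (S q m i z))⁻¹ * I T (S q m i z) a := by
    funext a; unfold w; rw [div_eq_inv_mul]
  rw [h1, Ex_mul_left, Ex_I, inv_mul_cancel₀ (sS_pos hm T i z).ne']

lemma Ex_w_mul [NeZero q] (T : Fin l × ZMod q → Finset (ZMod q)) (i z i' z' : ZMod q) :
    Ex (fun a => w T m i z a * w T m i' z' a) =
      s T (S q m i z ∪ S q m i' z') / (s T (S q m i z) * s T (S q m i' z')) := by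
  have h1 : (fun a => w T m i z a * w T m i' z' a) =
      fun a => (s T (S q m i z) * s T (S q m i' z'))⁻¹ * I T (S q m i z ∪ S q m i' z') a := by
    funext a; unfold w
    rw [← I_mul, div_mul_div_comm, div_eq_inv_mul]
  rw [h1, Ex_mul_left, Ex_I, ← div_eq_inv_mul]

/-- diagonal second moment -/
lemma Ex_w_sq_le [NeZero q] (hm : 2 * m ≤ q) (T : Fin l × ZMod q → Finset (ZMod q))
    (i z : ZMod q) :
    Ex (fun a => w T m i z a * w T m i z a) ≤ Real.exp (2 * m * l : ℝ) := by
  calc Ex (fun a => w T m i z a * w T m i z a)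
      ≤ Ex (fun a => Real.exp (2 * m * l : ℝ) * w T m i z a) := by
        apply Ex_mono
        intro a
        exact mul_le_mul_of_nonneg_right (w_le hm T i z a) (w_nonneg hm T i z a)
    _ = Real.exp (2 * m * l : ℝ) := by rw [Ex_mul_left, Ex_w hm, mul_one]

lemma s_empty [NeZero q] (T : Fin l × ZMod q → Finset (ZMod q)) :
    s T (∅ : Finset (Fin m × ZMod q)) = 1 := by
  unfold s
  apply Finset.prod_eq_one
  intro j _
  rw [N_empty]; simp

/-- two parallel lines -/
lemma Ex_w_parallel [Fact q.Prime] (hm : 2 * m ≤ q) (T : Fin l × ZMod q → Finset (ZMod q))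
    (i : ZMod q) {z z' : ZMod q} (hz : z ≠ z') :
    Ex (fun a => w T m i z a * w T m i z' a) ≤ Real.exp (4 * (l * m ^ 2) / q) := by
  rw [Ex_w_mul]
  have h1 : S q m i z ∩ S q m i z' = ∅ := by
    ext ω
    simp only [mem_inter, mem_S, Finset.notMem_empty, iff_false, not_and]
    intro h1 h2
    exact hz (h1.symm.trans h2)
  have h2 := s_union_le (l := l) hm T _ _ ∅ h1 (by simp) (S_card_le i z) (S_card_le i z')
  rw [s_empty, mul_one] at h2
  rw [div_le_iff₀ (mul_pos (sS_pos hm T i z) (sS_pos hm T i z'))]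
  linarith

/-- two lines through a common point -/
lemma Ex_w_meet [Fact q.Prime] (hm : 2 * m ≤ q) (T : Fin l × ZMod q → Finset (ZMod q))
    {i i' : ZMod q} (hi : i ≠ i') (ω : Fin m × ZMod q) :
    Ex (fun a => w T m i (L q m i ω) a * w T m i' (L q m i' ω) a) * s T {ω} ≤
      Real.exp (4 * (l * m ^ 2) / q) := by
  rw [Ex_w_mul]
  have h1 : S q m i (L q m i ω) ∩ S q m i' (L q m i' ω) = {ω} := by
    ext x
    simp only [mem_inter, mem_S, mem_singleton]
    constructor
    · rintro ⟨h1, h2⟩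
      exact point_unique (by omega) hi h1 h2
    · rintro rfl; exact ⟨rfl, rfl⟩
  have h2 := s_union_le (l := l) hm T _ _ {ω} h1 (by simp) (S_card_le i _) (S_card_le i' _)
  rw [div_mul_eq_mul_div, div_le_iff₀ (mul_pos (sS_pos hm T i _) (sS_pos hm T i' _))]
  linarith


/-! ### Variance bounds -/

lemma exp_le_one_add {x : ℝ} (h0 : 0 ≤ x) (h1 : x ≤ 1) : Real.exp x ≤ 1 + 2 * x := by
  have := Real.abs_exp_sub_one_sub_id_le (x := x) (by rw [abs_of_nonneg h0]; exact h1)
  have h2 := (abs_le.1 this).2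
  nlinarith

/-- the universal constant -/
noncomputable def Cst (l m : ℕ) : ℝ := Real.exp (2 * m * l : ℝ) * (1 + 8 * (l * m ^ 2))

lemma Cst_pos (l m : ℕ) : 0 < Cst l m := by unfold Cst; positivity

/-- total weight of the lines of slope `i` -/
noncomputable def W [NeZero q] (T : Fin l × ZMod q → Finset (ZMod q)) (m : ℕ) (i : ZMod q)
    (a : Fin l × ZMod q → ZMod q) : ℝ :=
  ∑ z, w T m i z a

lemma Ex_W_sub_sq [Fact q.Prime] (hm : 2 * m ≤ q) (hq : 4 * (l * m ^ 2) ≤ q)
    (T : Fin l × ZMod q → Finset (ZMod q)) (i : ZMod q) :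
    Ex (fun a => (W T m i a - q) ^ 2) ≤ q * Cst l m := by
  have hqpos : (0 : ℝ) < q := by exact_mod_cast (Fact.out : q.Prime).pos
  have hq' : (4 * (l * m ^ 2) : ℝ) ≤ q := by exact_mod_cast hq
  set E := Real.exp (4 * (l * m ^ 2) / q) with hE
  set K := Real.exp (2 * m * l : ℝ) with hK
  have hE1 : E ≤ 1 + 2 * (4 * (l * m ^ 2) / q) := by
    apply exp_le_one_add (by positivity)
    rw [div_le_one hqpos]; exact hq'
  have hE0 : 0 ≤ E := (Real.exp_pos _).le
  have hK1 : 1 ≤ K := by rw [hK]; exact Real.one_le_exp (by positivity)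
  have h1 : (fun a => (W T m i a - q) ^ 2) = fun a =>
      ((∑ z, ∑ z', w T m i z a * w T m i z' a) - 2 * q * (∑ z, w T m i z a)) + (q : ℝ) ^ 2 := by
    funext a
    have : W T m i a * W T m i a = ∑ z, ∑ z', w T m i z a * w T m i z' a := by
      unfold W; rw [Finset.sum_mul_sum]
    rw [← this]
    unfold W; ring
  rw [h1, Ex_add, Ex_sub, Ex_const, Ex_mul_left, Ex_sum]
  have h2 : ∑ z, Ex (w T m i z) = (q : ℝ) := by
    rw [Finset.sum_congr rfl (fun z _ => Ex_w hm T i z)]
    simp [ZMod.card]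
  have h2' : Ex (fun a => ∑ z, w T m i z a) = (q : ℝ) := by
    rw [Ex_sum]; exact h2
  rw [h2']
  have h3 : ∀ z : ZMod q, Ex (fun a => ∑ z', w T m i z a * w T m i z' a) ≤ K + q * E := by
    intro z
    rw [Ex_sum]
    calc ∑ z', Ex (fun a => w T m i z a * w T m i z' a)
        ≤ ∑ z', ((if z = z' then K else 0) + E) := by
          apply Finset.sum_le_sum
          intro z' _
          by_cases h : z = z'
          · subst h
            simp only [if_true]
            have := Ex_w_sq_le (l := l) hm T i z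
            linarith
          · simp only [h, if_false, zero_add]
            exact Ex_w_parallel hm T i h
      _ = K + q * E := by
          rw [Finset.sum_add_distrib]
          simp [ZMod.card]
  have h4 : ∑ z : ZMod q, Ex (fun a => ∑ z', w T m i z a * w T m i z' a) ≤ q * (K + q * E) := by
    refine (Finset.sum_le_sum (fun z _ => h3 z)).trans (le_of_eq ?_)
    rw [Finset.sum_const, card_univ, ZMod.card, nsmul_eq_mul]
  have h5 : q * (q * E) ≤ q * q + q * (8 * (l * m ^ 2)) := by
    have : q * E ≤ q + 8 * (l * m ^ 2) := by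
      have := mul_le_mul_of_nonneg_left hE1 hqpos.le
      refine this.trans (le_of_eq ?_)
      field_simp
      ring
    nlinarith
  have h6 : q * K + q * (8 * (l * m ^ 2)) ≤ q * Cst l m := by
    unfold Cst
    rw [← hK]
    have : 8 * ((l : ℝ) * m ^ 2) ≤ K * (8 * (l * m ^ 2)) := by
      have h7 : (0 : ℝ) ≤ 8 * (l * m ^ 2) := by positivity
      nlinarith
    nlinarith
  nlinarith

/-- total weight of the lines through `ω` with slopes in `D` -/
noncomputable def Z [NeZero q] (T : Fin l × ZMod q → Finset (ZMod q)) (D : Finset (ZMod q))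
    (ω : Fin m × ZMod q) (a : Fin l × ZMod q → ZMod q) : ℝ :=
  ∑ i ∈ D, w T m i (L q m i ω) a

lemma I_mul_w [NeZero q] (T : Fin l × ZMod q → Finset (ZMod q)) (i : ZMod q)
    (ω : Fin m × ZMod q) (a : Fin l × ZMod q → ZMod q) :
    I T {ω} a * w T m i (L q m i ω) a = w T m i (L q m i ω) a := by
  unfold w
  rw [← mul_div_assoc, I_mul]
  congr 2
  rw [Finset.union_eq_right, singleton_subset_iff, mem_S]

lemma I_sq (T : Fin l × ZMod q → Finset (ZMod q)) (X : Finset (Fin m × ZMod q))
    (a : Fin l × ZMod q → ZMod q) : I T X a = 0 ∨ I T X a = 1 := by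
  unfold I; split_ifs <;> simp

lemma Ex_Z_sub_sq [Fact q.Prime] (hm1 : 1 ≤ m) (hm : 2 * m ≤ q) (hq : 4 * (l * m ^ 2) ≤ q)
    (T : Fin l × ZMod q → Finset (ZMod q)) (D : Finset (ZMod q)) (ω : Fin m × ZMod q) :
    Ex (fun a => I T {ω} a * (Z T D ω a - D.card / s T {ω}) ^ 2) ≤ q * Cst l m := by
  have hqpos : (0 : ℝ) < q := by exact_mod_cast (Fact.out : q.Prime).pos
  have hq' : (4 * (l * m ^ 2) : ℝ) ≤ q := by exact_mod_cast hq
  set E := Real.exp (4 * (l * m ^ 2) / q) with hE
  set K := Real.exp (2 * m * l : ℝ) with hK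
  have hE1 : E ≤ 1 + 2 * (4 * (l * m ^ 2) / q) := by
    apply exp_le_one_add (by positivity)
    rw [div_le_one hqpos]; exact hq'
  have hK1 : 1 ≤ K := by rw [hK]; exact Real.one_le_exp (by positivity)
  have hs1 : Real.exp (-(2 * m * l : ℝ)) ≤ s T {ω} := s_lower hm T _ (by simpa using hm1)
  have hspos : 0 < s T {ω} := lt_of_lt_of_le (Real.exp_pos _) hs1
  have hsinv : (s T {ω})⁻¹ ≤ K := by
    rw [hK, inv_le_comm₀ hspos (Real.exp_pos _), ← Real.exp_neg]
    exact hs1
  have hDq : (D.card : ℝ) ≤ q := by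
    have := card_le_univ D
    rw [ZMod.card] at this
    exact_mod_cast this
  have hD0 : (0 : ℝ) ≤ D.card := by positivity
  set c := (D.card : ℝ) / s T {ω} with hc
  have hIZ : ∀ a, I T {ω} a * Z T D ω a = Z T D ω a := by
    intro a
    unfold Z
    rw [Finset.mul_sum]
    exact Finset.sum_congr rfl (fun i _ => I_mul_w T i ω a)
  have h1 : (fun a => I T {ω} a * (Z T D ω a - c) ^ 2) = fun a =>
      ((∑ i ∈ D, ∑ i' ∈ D, w T m i (L q m i ω) a * w T m i' (L q m i' ω) a) -
        2 * c * (∑ i ∈ D, w T m i (L q m i ω) a)) + c ^ 2 * I T {ω} a := by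
    funext a
    have h2 : Z T D ω a * Z T D ω a =
        ∑ i ∈ D, ∑ i' ∈ D, w T m i (L q m i ω) a * w T m i' (L q m i' ω) a := by
      unfold Z; rw [Finset.sum_mul_sum]
    rw [← h2]
    have h3 := hIZ a
    have h4 : ∑ i ∈ D, w T m i (L q m i ω) a = Z T D ω a := rfl
    rw [h4]
    calc I T {ω} a * (Z T D ω a - c) ^ 2
        = (I T {ω} a * Z T D ω a) * Z T D ω a - 2 * c * (I T {ω} a * Z T D ω a) +
          c ^ 2 * I T {ω} a := by ring
      _ = _ := by rw [h3]
  rw [h1, Ex_add, Ex_sub, Ex_mul_left, Ex_mul_left, Ex_sum, Ex_sum, Ex_I]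
  have h2 : ∑ i ∈ D, Ex (w T m i (L q m i ω)) = (D.card : ℝ) := by
    rw [Finset.sum_congr rfl (fun i _ => Ex_w hm T i _)]
    simp
  have h3 : ∀ i ∈ D, Ex (fun a => ∑ i' ∈ D, w T m i (L q m i ω) a * w T m i' (L q m i' ω) a) ≤
      K + D.card * (E / s T {ω}) := by
    intro i hi
    rw [Ex_sum]
    calc ∑ i' ∈ D, Ex (fun a => w T m i (L q m i ω) a * w T m i' (L q m i' ω) a)
        ≤ ∑ i' ∈ D, ((if i = i' then K else 0) + E / s T {ω}) := by
          apply Finset.sum_le_sum
          intro i' _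
          by_cases h : i = i'
          · subst h
            simp only [if_true]
            have h4 := Ex_w_sq_le (l := l) hm T i (L q m i ω)
            have h5 : 0 ≤ E / s T {ω} := div_nonneg (Real.exp_pos _).le hspos.le
            linarith
          · simp only [h, if_false, zero_add]
            rw [le_div_iff₀ hspos]
            exact Ex_w_meet hm T h ω
      _ = K + D.card * (E / s T {ω}) := by
          rw [Finset.sum_add_distrib]
          simp [hi]
  have h4 : ∑ i ∈ D, Ex (fun a => ∑ i' ∈ D, w T m i (L q m i ω) a * w T m i' (L q m i' ω) a) ≤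
      D.card * (K + D.card * (E / s T {ω})) := by
    refine (Finset.sum_le_sum h3).trans (le_of_eq ?_)
    rw [Finset.sum_const, nsmul_eq_mul]
  have h5 : Ex (fun a => ∑ i ∈ D, w T m i (L q m i ω) a) = (D.card : ℝ) := by
    rw [Ex_sum]; exact h2
  have h6 : (∑ i ∈ D, Ex (fun a => ∑ i' ∈ D, w T m i (L q m i ω) a * w T m i' (L q m i' ω) a)) -
      2 * c * (∑ i ∈ D, Ex (fun a => w T m i (L q m i ω) a)) + c ^ 2 * s T {ω} ≤
      D.card * K + D.card ^ 2 * (s T {ω})⁻¹ * (E - 1) := by
    have h7 : ∑ i ∈ D, Ex (fun a => w T m i (L q m i ω) a) = (D.card : ℝ) := h2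
    rw [h7]
    have h8 : c ^ 2 * s T {ω} = D.card ^ 2 * (s T {ω})⁻¹ := by
      rw [hc]; field_simp
    have h9 : 2 * c * D.card = 2 * (D.card ^ 2 * (s T {ω})⁻¹) := by
      rw [hc]; field_simp
    rw [h8, h9]
    have h10 : D.card * (K + D.card * (E / s T {ω})) =
      D.card * K + D.card ^ 2 * (s T {ω})⁻¹ * E := by
      field_simp
    linarith
  refine h6.trans ?_
  have h11 : (D.card : ℝ) ^ 2 * (s T {ω})⁻¹ * (E - 1) ≤ q ^ 2 * K * (2 * (4 * (l * m ^ 2) / q)) := by
    have h12 : E - 1 ≤ 2 * (4 * (l * m ^ 2) / q) := by linarith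
    have h13 : (0 : ℝ) ≤ 2 * (4 * (l * m ^ 2) / q) := by positivity
    have h14 : (D.card : ℝ) ^ 2 * (s T {ω})⁻¹ ≤ q ^ 2 * K := by
      apply mul_le_mul _ hsinv (inv_pos.2 hspos).le (by positivity)
      exact pow_le_pow_left₀ hD0 hDq 2
    have h15 : 0 ≤ (D.card : ℝ) ^ 2 * (s T {ω})⁻¹ := by positivity
    exact (mul_le_mul_of_nonneg_left h12 h15).trans (mul_le_mul_of_nonneg_right h14 h13)
  have h16 : (q : ℝ) ^ 2 * K * (2 * (4 * (l * m ^ 2) / q)) = q * (K * (8 * (l * m ^ 2))) := by
    field_simp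
    ring
  have h17 : (D.card : ℝ) * K ≤ q * K := mul_le_mul_of_nonneg_right hDq (by linarith)
  unfold Cst
  rw [← hK]
  nlinarith

end Pool.Agent.H42.TreeCover
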