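import Pool.Agent.H42.TreeCoverCore

/-!
# Core combinatorial lemma, second part: hard points and the two phases
-/

set_option autoImplicit false

namespace Pool.Agent.H42.TreeCover

open Finset

variable {q m l : ℕ}

/-- Few points have more than half of their lines forbidden. -/
lemma hard_le [Fact q.Prime] (hm : m ≤ q) (T' : ZMod q → Finset (ZMod q))
    (hT : 8 * ∑ i, (T' i).card ≤ q ^ 2) :
    (Finset.univ.filter (fun ω : Fin m × ZMod q =>
      q < 2 * (Finset.univ.filter (fun i : ZMod q => L q m i ω ∈ T' i)).card)).card ≤ q := by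
  classical
  set Hd := Finset.univ.filter (fun ω : Fin m × ZMod q =>
      q < 2 * (Finset.univ.filter (fun i : ZMod q => L q m i ω ∈ T' i)).card) with hHd
  have hqpos : (0 : ℝ) < q := by exact_mod_cast (Fact.out : q.Prime).pos
  set P : Finset (Σ _ : ZMod q, ZMod q) := Finset.univ.sigma T' with hP
  have hPcard : P.card = ∑ i, (T' i).card := by rw [hP, card_sigma]
  set c : (Σ _ : ZMod q, ZMod q) → ℝ :=
    fun p => ∑ ω ∈ Hd, (if L q m p.1 ω = p.2 then (1 : ℝ) else 0) with hc
  have h1 : ∑ p ∈ P, c p = ∑ ω ∈ Hd,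
      ((Finset.univ.filter (fun i : ZMod q => L q m i ω ∈ T' i)).card : ℝ) := by
    rw [hP, Finset.sum_sigma]
    simp only [hc]
    have h2 : ∀ i : ZMod q, ∑ z ∈ T' i, ∑ ω ∈ Hd, (if L q m i ω = z then (1 : ℝ) else 0) =
        ∑ ω ∈ Hd, (if L q m i ω ∈ T' i then (1 : ℝ) else 0) := by
      intro i
      rw [Finset.sum_comm]
      apply Finset.sum_congr rfl
      intro ω _
      rw [Finset.sum_ite_eq (T' i) (L q m i ω)]
    rw [Finset.sum_congr rfl (fun i _ => h2 i), Finset.sum_comm]
    apply Finset.sum_congr rfl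
    intro ω _
    rw [Finset.card_filter]
    push_cast
    rfl
  have h2 : (Hd.card : ℝ) * (q / 2) ≤ ∑ p ∈ P, c p := by
    rw [h1, ← nsmul_eq_mul]
    apply Finset.card_nsmul_le_sum
    intro ω hω
    rw [hHd, mem_filter] at hω
    have : (q : ℝ) < 2 * (Finset.univ.filter (fun i : ZMod q => L q m i ω ∈ T' i)).card := by
      exact_mod_cast hω.2
    linarith
  have h3 : (∑ p ∈ P, c p) ^ 2 ≤ P.card * ∑ p ∈ P, c p ^ 2 := sq_sum_le_card_mul_sum_sq
  have h4 : ∑ p ∈ P, c p ^ 2 ≤ Hd.card * q + (Hd.card : ℝ) ^ 2 := by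
    calc ∑ p ∈ P, c p ^ 2 ≤ ∑ i : ZMod q, ∑ z : ZMod q, c ⟨i, z⟩ ^ 2 := by
          rw [hP, Finset.sum_sigma]
          apply Finset.sum_le_sum
          intro i _
          exact Finset.sum_le_sum_of_subset_of_nonneg (Finset.subset_univ _)
            (fun _ _ _ => sq_nonneg _)
      _ = ∑ i : ZMod q, ∑ ω ∈ Hd, ∑ ω' ∈ Hd,
            (if L q m i ω = L q m i ω' then (1 : ℝ) else 0) := by
          apply Finset.sum_congr rfl
          intro i _
          have h5 : ∀ z : ZMod q, c ⟨i, z⟩ ^ 2 = ∑ ω ∈ Hd, ∑ ω' ∈ Hd,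
              (if L q m i ω = z then (1 : ℝ) else 0) * (if L q m i ω' = z then (1 : ℝ) else 0) := by
            intro z
            simp only [hc]
            rw [sq, Finset.sum_mul_sum]
          rw [Finset.sum_congr rfl (fun z _ => h5 z), Finset.sum_comm]
          apply Finset.sum_congr rfl
          intro ω _
          rw [Finset.sum_comm]
          apply Finset.sum_congr rfl
          intro ω' _
          rw [Finset.sum_eq_single (L q m i ω)]
          · by_cases h : L q m i ω = L q m i ω'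
            · simp [h]
            · simp [h, Ne.symm h]
          · intro z _ hz
            simp [Ne.symm hz]
          · intro h; exact absurd (mem_univ _) h
      _ = ∑ ω ∈ Hd, ∑ ω' ∈ Hd, ∑ i : ZMod q,
            (if L q m i ω = L q m i ω' then (1 : ℝ) else 0) := by
          rw [Finset.sum_comm]
          apply Finset.sum_congr rfl
          intro ω _
          rw [Finset.sum_comm]
      _ ≤ ∑ ω ∈ Hd, ∑ ω' ∈ Hd, ((if ω = ω' then (q : ℝ) else 0) + 1) := by
          apply Finset.sum_le_sum
          intro ω _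
          apply Finset.sum_le_sum
          intro ω' _
          by_cases h : ω = ω'
          · subst h
            simp [ZMod.card]
          · simp only [h, if_false, zero_add]
            have h6 := codeg_le_one (q := q) hm h
            rw [Finset.card_filter] at h6
            exact_mod_cast h6
      _ = Hd.card * q + (Hd.card : ℝ) ^ 2 := by
          have h7 : ∀ ω ∈ Hd, ∑ ω' ∈ Hd, ((if ω = ω' then (q : ℝ) else 0) + 1) =
              q + Hd.card := by
            intro ω hω
            rw [Finset.sum_add_distrib, Finset.sum_ite_eq]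
            simp [hω]
          rw [Finset.sum_congr rfl h7]
          simp
          ring
  have hPc : (8 : ℝ) * P.card ≤ q ^ 2 := by
    rw [hPcard]; exact_mod_cast hT
  have h5 : 0 ≤ (Hd.card : ℝ) := by positivity
  have h6 : ((Hd.card : ℝ) * (q / 2)) ^ 2 ≤ (q ^ 2 / 8) * (Hd.card * q + (Hd.card : ℝ) ^ 2) := by
    calc ((Hd.card : ℝ) * (q / 2)) ^ 2 ≤ (∑ p ∈ P, c p) ^ 2 :=
          pow_le_pow_left₀ (by positivity) h2 2
      _ ≤ P.card * ∑ p ∈ P, c p ^ 2 := h3
      _ ≤ (q ^ 2 / 8) * (Hd.card * q + (Hd.card : ℝ) ^ 2) := by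
          apply mul_le_mul _ h4 (Finset.sum_nonneg (fun _ _ => sq_nonneg _)) (by positivity)
          linarith
  have h7 : (q : ℝ) ^ 2 * ((Hd.card : ℝ) ^ 2 - Hd.card * q) ≤ 0 := by nlinarith
  have h8 : (Hd.card : ℝ) ^ 2 - Hd.card * q ≤ 0 := by
    by_contra h
    push Not at h
    have := mul_pos (pow_pos hqpos 2) h
    linarith
  have h9 : (Hd.card : ℝ) ≤ q := by
    by_contra h
    push Not at h
    nlinarith
  exact_mod_cast h9


/-- slopes of the allowed phase-two lines through `ω` -/
def D [NeZero q] (T2 : ZMod q → Finset (ZMod q)) (ω : Fin m × ZMod q) : Finset (ZMod q) :=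
  Finset.univ.filter (fun i => L q m i ω ∉ T2 i)

/-- points with at least half of their phase-two lines allowed -/
def Good (m : ℕ) [NeZero q] (T2 : ZMod q → Finset (ZMod q)) : Finset (Fin m × ZMod q) :=
  Finset.univ.filter (fun ω => q ≤ 2 * (D T2 ω).card)

noncomputable def C2 (l m : ℕ) : ℝ := Cst l m * (1 + 16 * m)

lemma phase1 [Fact q.Prime] (hm1 : 1 ≤ m) (hm : 2 * m ≤ q) (hq : 4 * (l * m ^ 2) ≤ q)
    (T : Fin l × ZMod q → Finset (ZMod q)) (T2 : ZMod q → Finset (ZMod q)) :
    ∃ a : Fin l × ZMod q → ZMod q,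
      ((Finset.univ.filter (fun i : ZMod q => 2 * (q : ℝ) < W T m i a)).card : ℝ) ≤ C2 l m ∧
      (((Good m T2).filter (fun ω => I T {ω} a = 1 ∧
        Z T (D T2 ω) ω a < (D T2 ω).card / (2 * s T {ω}))).card : ℝ) ≤ C2 l m := by
  classical
  have hqpos : (0 : ℝ) < q := by exact_mod_cast (Fact.out : q.Prime).pos
  set F : (Fin l × ZMod q → ZMod q) → ℝ := fun a =>
    (∑ i : ZMod q, (1 / (q : ℝ) ^ 2) * (W T m i a - q) ^ 2) +
    ∑ ω ∈ Good m T2, (16 / (q : ℝ) ^ 2) *
      (I T {ω} a * (Z T (D T2 ω) ω a - (D T2 ω).card / s T {ω}) ^ 2) with hF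
  have hEx : Ex F ≤ C2 l m := by
    simp only [hF]
    rw [Ex_add, Ex_sum, Ex_sum]
    have h1 : ∑ i : ZMod q, Ex (fun a => (1 / (q : ℝ) ^ 2) * (W T m i a - q) ^ 2) ≤ Cst l m := by
      calc ∑ i : ZMod q, Ex (fun a => (1 / (q : ℝ) ^ 2) * (W T m i a - q) ^ 2)
          ≤ ∑ _i : ZMod q, (1 / (q : ℝ) ^ 2) * (q * Cst l m) := by
            apply Finset.sum_le_sum
            intro i _
            rw [Ex_mul_left]
            exact mul_le_mul_of_nonneg_left (Ex_W_sub_sq hm hq T i) (by positivity)
        _ = Cst l m := by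
            rw [Finset.sum_const, card_univ, ZMod.card, nsmul_eq_mul]
            field_simp
    have h2 : ∑ ω ∈ Good m T2, Ex (fun a => (16 / (q : ℝ) ^ 2) *
        (I T {ω} a * (Z T (D T2 ω) ω a - (D T2 ω).card / s T {ω}) ^ 2)) ≤ Cst l m * (16 * m) := by
      calc ∑ ω ∈ Good m T2, Ex (fun a => (16 / (q : ℝ) ^ 2) *
          (I T {ω} a * (Z T (D T2 ω) ω a - (D T2 ω).card / s T {ω}) ^ 2))
          ≤ ∑ _ω ∈ Good m T2, (16 / (q : ℝ) ^ 2) * (q * Cst l m) := by
            apply Finset.sum_le_sum
            intro ω _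
            rw [Ex_mul_left]
            exact mul_le_mul_of_nonneg_left (Ex_Z_sub_sq hm1 hm hq T _ ω) (by positivity)
        _ = ((Good m T2).card : ℝ) * ((16 / (q : ℝ) ^ 2) * (q * Cst l m)) := by
            rw [Finset.sum_const, nsmul_eq_mul]
        _ ≤ (m * q : ℝ) * ((16 / (q : ℝ) ^ 2) * (q * Cst l m)) := by
            apply mul_le_mul_of_nonneg_right
            · have := card_le_univ (Good m T2)
              rw [Fintype.card_prod, Fintype.card_fin, ZMod.card] at this
              exact_mod_cast this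
            · have := Cst_pos l m
              positivity
        _ = Cst l m * (16 * m) := by field_simp
    unfold C2
    linarith
  obtain ⟨a, ha⟩ := Ex_exists_le F
  have hFa : F a ≤ C2 l m := ha.trans hEx
  have hpart1 : 0 ≤ ∑ i : ZMod q, (1 / (q : ℝ) ^ 2) * (W T m i a - q) ^ 2 :=
    Finset.sum_nonneg (fun i _ => by positivity)
  have hpart2 : 0 ≤ ∑ ω ∈ Good m T2, (16 / (q : ℝ) ^ 2) *
      (I T {ω} a * (Z T (D T2 ω) ω a - (D T2 ω).card / s T {ω}) ^ 2) :=
    Finset.sum_nonneg (fun ω _ => mul_nonneg (by positivity)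
      (mul_nonneg (I_nonneg _ _ _) (sq_nonneg _)))
  refine ⟨a, ?_, ?_⟩
  · calc ((Finset.univ.filter (fun i : ZMod q => 2 * (q : ℝ) < W T m i a)).card : ℝ)
        = ∑ i ∈ Finset.univ.filter (fun i : ZMod q => 2 * (q : ℝ) < W T m i a), (1 : ℝ) := by simp
      _ ≤ ∑ i ∈ Finset.univ.filter (fun i : ZMod q => 2 * (q : ℝ) < W T m i a),
            (1 / (q : ℝ) ^ 2) * (W T m i a - q) ^ 2 := by
          apply Finset.sum_le_sum
          intro i hi
          rw [mem_filter] at hi
          rw [div_mul_eq_mul_div, one_mul, one_le_div (by positivity)]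
          apply pow_le_pow_left₀ hqpos.le
          linarith [hi.2]
      _ ≤ ∑ i : ZMod q, (1 / (q : ℝ) ^ 2) * (W T m i a - q) ^ 2 :=
          Finset.sum_le_sum_of_subset_of_nonneg (Finset.subset_univ _)
            (fun _ _ _ => by positivity)
      _ ≤ C2 l m := by
          simp only [hF] at hFa
          linarith
  · set Bad := (Good m T2).filter (fun ω => I T {ω} a = 1 ∧
        Z T (D T2 ω) ω a < (D T2 ω).card / (2 * s T {ω})) with hBad
    calc (Bad.card : ℝ) = ∑ ω ∈ Bad, (1 : ℝ) := by simp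
      _ ≤ ∑ ω ∈ Bad, (16 / (q : ℝ) ^ 2) *
            (I T {ω} a * (Z T (D T2 ω) ω a - (D T2 ω).card / s T {ω}) ^ 2) := by
          apply Finset.sum_le_sum
          intro ω hω
          rw [hBad, mem_filter] at hω
          obtain ⟨hg, hI, hZ⟩ := hω
          unfold Good at hg
          rw [mem_filter] at hg
          have hg' : (q : ℝ) ≤ 2 * (D T2 ω).card := by exact_mod_cast hg.2
          have hspos : 0 < s T {ω} :=
            lt_of_lt_of_le (Real.exp_pos _) (s_lower hm T _ (by simpa using hm1))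
          have hs1 := s_le_one T ({ω} : Finset (Fin m × ZMod q))
          rw [hI, one_mul]
          have h1 : ((D T2 ω).card : ℝ) / (2 * s T {ω}) = ((D T2 ω).card / s T {ω}) / 2 := by
            field_simp
          have h2 : (q : ℝ) / 2 ≤ (D T2 ω).card / s T {ω} := by
            rw [le_div_iff₀ hspos]
            nlinarith
          rw [h1] at hZ
          have h3 : (q : ℝ) / 4 ≤ (D T2 ω).card / s T {ω} - Z T (D T2 ω) ω a := by linarith
          have h4 : ((q : ℝ) / 4) ^ 2 ≤ (Z T (D T2 ω) ω a - (D T2 ω).card / s T {ω}) ^ 2 := by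
            rw [← neg_sub, neg_sq]
            exact pow_le_pow_left₀ (by positivity) h3 2
          calc (1 : ℝ) = (16 / (q : ℝ) ^ 2) * ((q : ℝ) / 4) ^ 2 := by field_simp; norm_num
            _ ≤ _ := mul_le_mul_of_nonneg_left h4 (by positivity)
      _ ≤ ∑ ω ∈ Good m T2, (16 / (q : ℝ) ^ 2) *
            (I T {ω} a * (Z T (D T2 ω) ω a - (D T2 ω).card / s T {ω}) ^ 2) :=
          Finset.sum_le_sum_of_subset_of_nonneg (filter_subset _ _)
            (fun _ _ _ => mul_nonneg (by positivity) (mul_nonneg (I_nonneg _ _ _) (sq_nonneg _)))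
      _ ≤ C2 l m := by
          simp only [hF] at hFa
          linarith

/-! ### Phase two -/

open Classical in
/-- phase-two choice probabilities -/
noncomputable def Pr [NeZero q] (T : Fin l × ZMod q → Finset (ZMod q)) (m : ℕ)
    (a : Fin l × ZMod q → ZMod q) (i z : ZMod q) : ℝ :=
  if 0 < W T m i a then w T m i z a / W T m i a else 1 / q

lemma Pr_nonneg [NeZero q] (hm : 2 * m ≤ q) (T : Fin l × ZMod q → Finset (ZMod q))
    (a : Fin l × ZMod q → ZMod q) (i z : ZMod q) : 0 ≤ Pr T m a i z := by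
  unfold Pr
  split_ifs with h
  · exact div_nonneg (w_nonneg hm T i z a) h.le
  · positivity

lemma Pr_sum [NeZero q] (T : Fin l × ZMod q → Finset (ZMod q))
    (a : Fin l × ZMod q → ZMod q) (i : ZMod q) : ∑ z, Pr T m a i z = 1 := by
  unfold Pr
  split_ifs with h
  · rw [← Finset.sum_div]
    exact div_self h.ne'
  · have : (q : ℝ) ≠ 0 := by exact_mod_cast NeZero.ne q
    simp [ZMod.card, this]

lemma Pr_le_one [NeZero q] (hm : 2 * m ≤ q) (T : Fin l × ZMod q → Finset (ZMod q))
    (a : Fin l × ZMod q → ZMod q) (i z : ZMod q) : Pr T m a i z ≤ 1 := by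
  rw [← Pr_sum (m := m) T a i]
  exact Finset.single_le_sum (fun z _ => Pr_nonneg hm T a i z) (mem_univ z)

open Classical in
/-- phase two: there is a choice leaving at most the expected number of points -/
lemma phase2 [NeZero q] (hm : 2 * m ≤ q) (T : Fin l × ZMod q → Finset (ZMod q))
    (T2 : ZMod q → Finset (ZMod q)) (a : Fin l × ZMod q → ZMod q) :
    ∃ b : ZMod q → ZMod q,
      ((Finset.univ.filter (fun ω : Fin m × ZMod q => I T {ω} a = 1 ∧
        ∀ i, L q m i ω = b i → b i ∈ T2 i)).card : ℝ) ≤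
      ∑ ω : Fin m × ZMod q, I T {ω} a *
        ∏ i ∈ D T2 ω, (1 - Pr T m a i (L q m i ω)) := by
  set U : (ZMod q → ZMod q) → Fin m × ZMod q → ℝ := fun b ω =>
    I T {ω} a * ∏ i : ZMod q, (if L q m i ω = b i ∧ b i ∉ T2 i then (0 : ℝ) else 1) with hU
  have hsum : ∑ b : ZMod q → ZMod q, (∏ i, Pr T m a i (b i)) = 1 := by
    have h1 := Finset.prod_univ_sum (fun _ : ZMod q => (Finset.univ : Finset (ZMod q)))
      (fun i z => Pr T m a i z)
    rw [Fintype.piFinset_univ] at h1
    rw [← h1]
    exact Finset.prod_eq_one (fun i _ => Pr_sum T a i)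
  have hexp : ∑ b : ZMod q → ZMod q, (∏ i, Pr T m a i (b i)) * ∑ ω, U b ω =
      ∑ ω : Fin m × ZMod q, I T {ω} a * ∏ i ∈ D T2 ω, (1 - Pr T m a i (L q m i ω)) := by
    calc ∑ b : ZMod q → ZMod q, (∏ i, Pr T m a i (b i)) * ∑ ω, U b ω
        = ∑ ω : Fin m × ZMod q, I T {ω} a * ∑ b : ZMod q → ZMod q, ∏ i,
            (Pr T m a i (b i) * (if L q m i ω = b i ∧ b i ∉ T2 i then (0 : ℝ) else 1)) := by
          simp only [Finset.mul_sum]
          rw [Finset.sum_comm]
          apply Finset.sum_congr rfl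
          intro ω _
          apply Finset.sum_congr rfl
          intro b _
          simp only [hU]
          rw [Finset.prod_mul_distrib]
          ring
      _ = ∑ ω : Fin m × ZMod q, I T {ω} a * ∏ i ∈ D T2 ω, (1 - Pr T m a i (L q m i ω)) := by
          apply Finset.sum_congr rfl
          intro ω _
          congr 1
          have h1 := Finset.prod_univ_sum (fun _ : ZMod q => (Finset.univ : Finset (ZMod q)))
            (fun i z => Pr T m a i z * (if L q m i ω = z ∧ z ∉ T2 i then (0 : ℝ) else 1))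
          rw [Fintype.piFinset_univ] at h1
          rw [← h1]
          have h2 : ∀ i : ZMod q, ∑ z : ZMod q,
              Pr T m a i z * (if L q m i ω = z ∧ z ∉ T2 i then (0 : ℝ) else 1) =
              if L q m i ω ∉ T2 i then 1 - Pr T m a i (L q m i ω) else 1 := by
            intro i
            have h3 : ∀ z : ZMod q,
                Pr T m a i z * (if L q m i ω = z ∧ z ∉ T2 i then (0 : ℝ) else 1) =
                Pr T m a i z - (if L q m i ω = z then
                  (if L q m i ω ∉ T2 i then Pr T m a i (L q m i ω) else 0) else 0) := by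
              intro z
              by_cases hz : L q m i ω = z
              · subst hz
                by_cases hT : L q m i ω ∈ T2 i <;> simp [hT]
              · simp [hz]
            rw [Finset.sum_congr rfl (fun z _ => h3 z), Finset.sum_sub_distrib, Pr_sum,
              Finset.sum_ite_eq]
            by_cases hT : L q m i ω ∈ T2 i <;> simp [hT]
          rw [Finset.prod_congr rfl (fun i _ => h2 i)]
          unfold D
          rw [Finset.prod_filter]
  have hex : ∃ b : ZMod q → ZMod q, ∑ ω, U b ω ≤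
      ∑ ω : Fin m × ZMod q, I T {ω} a * ∏ i ∈ D T2 ω, (1 - Pr T m a i (L q m i ω)) := by
    by_contra hcon
    push Not at hcon
    set R := ∑ ω : Fin m × ZMod q, I T {ω} a * ∏ i ∈ D T2 ω, (1 - Pr T m a i (L q m i ω)) with hR
    have h1 : ∑ b : ZMod q → ZMod q, (∏ i, Pr T m a i (b i)) * R <
        ∑ b : ZMod q → ZMod q, (∏ i, Pr T m a i (b i)) * ∑ ω, U b ω := by
      apply Finset.sum_lt_sum
      · intro b _
        exact mul_le_mul_of_nonneg_left (hcon b).le
          (Finset.prod_nonneg (fun i _ => Pr_nonneg hm T a i (b i)))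
      · have h2 : ∃ b : ZMod q → ZMod q, 0 < ∏ i, Pr T m a i (b i) := by
          by_contra h3
          push Not at h3
          have : ∑ b : ZMod q → ZMod q, (∏ i, Pr T m a i (b i)) ≤ 0 :=
            Finset.sum_nonpos (fun b _ => h3 b)
          linarith
        obtain ⟨b, hb⟩ := h2
        exact ⟨b, mem_univ _, mul_lt_mul_of_pos_left (hcon b) hb⟩
    rw [← Finset.sum_mul, hsum, one_mul, hexp] at h1
    exact lt_irrefl _ h1
  obtain ⟨b, hb⟩ := hex
  refine ⟨b, le_trans (le_of_eq ?_) hb⟩
  rw [Finset.card_filter]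
  push_cast
  apply Finset.sum_congr rfl
  intro ω _
  simp only [hU]
  rcases I_sq T {ω} a with h0 | h1
  · simp [h0]
  · rw [h1, one_mul]
    by_cases hall : ∀ i, L q m i ω = b i → b i ∈ T2 i
    · rw [if_pos ⟨rfl, hall⟩]
      symm
      apply Finset.prod_eq_one
      intro i _
      rw [if_neg]
      rintro ⟨h2, h3⟩
      exact h3 (hall i h2)
    · rw [if_neg (fun h => hall h.2)]
      push Not at hall
      obtain ⟨i, hi1, hi2⟩ := hall
      symm
      apply Finset.prod_eq_zero (mem_univ i)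
      rw [if_pos ⟨hi1, hi2⟩]


lemma N_singleton (T : Fin l × ZMod q → Finset (ZMod q)) (j : Fin l × ZMod q)
    (ω : Fin m × ZMod q) :
    N T j {ω} = if L q m j.2 ω ∈ T j then ∅ else {L q m j.2 ω} := by
  unfold N
  rw [image_singleton]
  split_ifs with h
  · rw [sdiff_eq_empty_iff_subset, singleton_subset_iff]; exact h
  · rw [Finset.sdiff_eq_self_iff_disjoint, disjoint_singleton_left]; exact h

lemma I_singleton (T : Fin l × ZMod q → Finset (ZMod q)) (ω : Fin m × ZMod q)
    (a : Fin l × ZMod q → ZMod q) :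
    I T {ω} a = 1 ↔ ∀ j, L q m j.2 ω = a j → a j ∈ T j := by
  unfold I
  constructor
  · intro h j hj
    by_contra hn
    have h2 : ∀ j, a j ∉ N T j {ω} := by
      by_contra h3
      rw [if_neg h3] at h
      norm_num at h
    apply h2 j
    rw [N_singleton, if_neg (by rw [hj]; exact hn), mem_singleton, hj]
  · intro h
    rw [if_pos]
    intro j hj
    rw [N_singleton] at hj
    split_ifs at hj with h1
    · simp at hj
    · rw [mem_singleton] at hj
      apply h1
      rw [← hj]
      exact h j hj.symm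

/-- survival probability of a point with many allowed lines is small -/
lemma s_singleton_le [NeZero q] (T : Fin l × ZMod q → Finset (ZMod q)) (ω : Fin m × ZMod q)
    (h : ∀ f : Fin l, ¬ q < 2 * (Finset.univ.filter
      (fun i : ZMod q => L q m i ω ∈ T (f, i))).card) :
    s T {ω} ≤ Real.exp (-((l : ℝ) / 2)) := by
  classical
  have hqpos : (0 : ℝ) < q := by exact_mod_cast NeZero.pos q
  have h1 : s T {ω} ≤ ∏ j : Fin l × ZMod q, Real.exp (-(((N T j {ω}).card : ℝ) / q)) := by
    unfold s
    apply Finset.prod_le_prod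
    · intro j _
      have h2 : (N T j {ω}).card ≤ 1 := (N_card_le T j {ω}).trans (by simp)
      have h3 : ((N T j {ω}).card : ℝ) ≤ 1 := by exact_mod_cast h2
      have h4 : (1 : ℝ) ≤ q := by exact_mod_cast NeZero.pos q
      rw [sub_nonneg, div_le_one hqpos]
      linarith
    · intro j _
      have := Real.add_one_le_exp (-(((N T j {ω}).card : ℝ) / q))
      linarith
  refine h1.trans ?_
  rw [← Real.exp_sum]
  apply Real.exp_le_exp.2
  rw [Finset.sum_neg_distrib, neg_le_neg_iff, ← Finset.sum_div, le_div_iff₀ hqpos]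
  have h5 : ∑ j : Fin l × ZMod q, ((N T j {ω}).card : ℝ) =
      ∑ f : Fin l, ∑ i : ZMod q, ((N T (f, i) {ω}).card : ℝ) := by
    rw [Fintype.sum_prod_type]
  rw [h5]
  have h6 : ∀ f : Fin l, (q : ℝ) / 2 ≤ ∑ i : ZMod q, ((N T (f, i) {ω}).card : ℝ) := by
    intro f
    have h7 : ∀ i : ZMod q, ((N T (f, i) {ω}).card : ℝ) =
        1 - (if L q m i ω ∈ T (f, i) then (1 : ℝ) else 0) := by
      intro i
      rw [N_singleton]
      by_cases hT : L q m i ω ∈ T (f, i) <;> simp [hT]
    rw [Finset.sum_congr rfl (fun i _ => h7 i), Finset.sum_sub_distrib]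
    have h8 := h f
    push Not at h8
    have h9 : (2 * (Finset.univ.filter (fun i : ZMod q => L q m i ω ∈ T (f, i))).card : ℝ) ≤ q := by
      exact_mod_cast h8
    rw [Finset.card_filter] at h9
    push_cast at h9
    simp only [Finset.sum_const, card_univ, ZMod.card, nsmul_eq_mul, mul_one]
    linarith
  calc (l : ℝ) / 2 * q = ∑ _f : Fin l, (q : ℝ) / 2 := by
        rw [Finset.sum_const, card_univ, Fintype.card_fin, nsmul_eq_mul]; ring
    _ ≤ _ := Finset.sum_le_sum (fun f _ => h6 f)

lemma Pr_ge [NeZero q] (hm : 2 * m ≤ q) (T : Fin l × ZMod q → Finset (ZMod q))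
    (a : Fin l × ZMod q → ZMod q) (i z : ZMod q) :
    (w T m i z a - (if 2 * (q : ℝ) < W T m i a then Real.exp (2 * m * l : ℝ) else 0)) / (2 * q) ≤
      Pr T m a i z := by
  have hqpos : (0 : ℝ) < q := by exact_mod_cast NeZero.pos q
  have hw0 := w_nonneg hm T i z a
  have hwK := w_le hm T i z a
  by_cases h : 2 * (q : ℝ) < W T m i a
  · rw [if_pos h]
    refine le_trans ?_ (Pr_nonneg hm T a i z)
    apply div_nonpos_of_nonpos_of_nonneg <;> linarith
  · rw [if_neg h, sub_zero]
    push Not at h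
    unfold Pr
    split_ifs with h2
    · exact div_le_div_of_nonneg_left hw0 h2 h
    · have h3 : w T m i z a ≤ W T m i a :=
        Finset.single_le_sum (f := fun z => w T m i z a) (fun z _ => w_nonneg hm T i z a)
          (mem_univ z)
      have h4 : w T m i z a = 0 := by linarith
      rw [h4, zero_div]
      positivity

open Classical in
/-- **Core lemma.** However one forbids at most `q^2/8` pairs (colour, line), some selection of
allowed lines, at most one for each colour, covers all but a tiny part of the point set. -/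
theorem core (l m : ℕ) (hm1 : 1 ≤ m) : ∃ q₀ : ℕ, ∀ q : ℕ, q₀ ≤ q → ∀ [Fact q.Prime]
    (T : Fin l × ZMod q → Finset (ZMod q)) (T2 : ZMod q → Finset (ZMod q)),
    (∀ f : Fin l, 8 * ∑ i, (T (f, i)).card ≤ q ^ 2) → 8 * ∑ i, (T2 i).card ≤ q ^ 2 →
    ∃ (a : Fin l × ZMod q → ZMod q) (b : ZMod q → ZMod q),
      ((Finset.univ.filter (fun ω : Fin m × ZMod q =>
        (∀ j, L q m j.2 ω = a j → a j ∈ T j) ∧ (∀ i, L q m i ω = b i → b i ∈ T2 i))).card : ℝ) ≤
      (l + 2) * q + m * q * Real.exp (-(Real.exp ((l : ℝ) / 2) / 16)) := by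
  refine ⟨max (2 * m) (max (4 * (l * m ^ 2)) (max ⌈C2 l m⌉₊
    ⌈8 * (Real.exp (2 * m * l : ℝ) * C2 l m)⌉₊)), ?_⟩
  intro q hq0 hprime T T2 hT hT2
  have hm : 2 * m ≤ q := (le_max_left _ _).trans hq0
  have hq1 : 4 * (l * m ^ 2) ≤ q := ((le_max_left _ _).trans (le_max_right _ _)).trans hq0
  have hq2 : C2 l m ≤ q := by
    refine (Nat.le_ceil _).trans ?_
    exact_mod_cast (((le_max_left _ _).trans (le_max_right _ _)).trans (le_max_right _ _)).trans hq0
  have hq3 : 8 * (Real.exp (2 * m * l : ℝ) * C2 l m) ≤ q := by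
    refine (Nat.le_ceil _).trans ?_
    exact_mod_cast (((le_max_right _ _).trans (le_max_right _ _)).trans (le_max_right _ _)).trans hq0
  have hqpos : (0 : ℝ) < q := by exact_mod_cast (Fact.out : q.Prime).pos
  obtain ⟨a, ha1, ha2⟩ := phase1 hm1 hm hq1 T T2
  obtain ⟨b, hb⟩ := phase2 hm T T2 a
  refine ⟨a, b, ?_⟩
  have hset : (Finset.univ.filter (fun ω : Fin m × ZMod q =>
        (∀ j, L q m j.2 ω = a j → a j ∈ T j) ∧ (∀ i, L q m i ω = b i → b i ∈ T2 i))) =
      (Finset.univ.filter (fun ω : Fin m × ZMod q => I T {ω} a = 1 ∧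
        ∀ i, L q m i ω = b i → b i ∈ T2 i)) := by
    apply Finset.filter_congr
    intro ω _
    rw [I_singleton]
  rw [hset]
  refine hb.trans ?_
  -- classification of the points
  set η := Real.exp (-(Real.exp ((l : ℝ) / 2) / 16)) with hη
  set H1 : Finset (Fin m × ZMod q) := Finset.univ.biUnion (fun f : Fin l =>
    Finset.univ.filter (fun ω : Fin m × ZMod q => q < 2 * (Finset.univ.filter
      (fun i : ZMod q => L q m i ω ∈ T (f, i))).card)) with hH1
  set H2 : Finset (Fin m × ZMod q) := Finset.univ.filter (fun ω : Fin m × ZMod q =>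
    q < 2 * (Finset.univ.filter (fun i : ZMod q => L q m i ω ∈ T2 i)).card) with hH2
  set Bad := (Good m T2).filter (fun ω => I T {ω} a = 1 ∧
        Z T (D T2 ω) ω a < (D T2 ω).card / (2 * s T {ω})) with hBad
  have hH1c : (H1.card : ℝ) ≤ l * q := by
    have : H1.card ≤ ∑ f : Fin l, q := by
      refine card_biUnion_le.trans (Finset.sum_le_sum (fun f _ => ?_))
      exact hard_le (by omega) (fun i => T (f, i)) (hT f)
    rw [Finset.sum_const, card_univ, Fintype.card_fin, smul_eq_mul] at this
    exact_mod_cast this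
  have hH2c : (H2.card : ℝ) ≤ q := by exact_mod_cast hard_le (by omega) T2 hT2
  have hBadc : (Bad.card : ℝ) ≤ q := ha2.trans hq2
  have hterm1 : ∀ ω : Fin m × ZMod q,
      I T {ω} a * ∏ i ∈ D T2 ω, (1 - Pr T m a i (L q m i ω)) ≤ 1 := by
    intro ω
    have h1 : ∏ i ∈ D T2 ω, (1 - Pr T m a i (L q m i ω)) ≤ 1 := by
      apply Finset.prod_le_one
      · intro i _; linarith [Pr_le_one hm T a i (L q m i ω)]
      · intro i _; linarith [Pr_nonneg hm T a i (L q m i ω)]
    rcases I_sq T {ω} a with h | h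
    · rw [h, zero_mul]; norm_num
    · rw [h, one_mul]; exact h1
  have hterm2 : ∀ ω : Fin m × ZMod q, ω ∉ H1 → ω ∉ H2 → ω ∉ Bad →
      I T {ω} a * ∏ i ∈ D T2 ω, (1 - Pr T m a i (L q m i ω)) ≤ η := by
    intro ω h1 h2 h3
    rcases I_sq T {ω} a with h | h
    · rw [h, zero_mul]; exact (Real.exp_pos _).le
    rw [h, one_mul]
    -- good point
    have hDcard : (D T2 ω).card + (Finset.univ.filter (fun i : ZMod q => L q m i ω ∈ T2 i)).card
        = q := by
      have := Finset.card_filter_add_card_filter_not (s := (Finset.univ : Finset (ZMod q)))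
        (fun i : ZMod q => L q m i ω ∈ T2 i)
      rw [card_univ, ZMod.card] at this
      unfold D
      omega
    have hDge : q ≤ 2 * (D T2 ω).card := by
      have h4 : ¬ q < 2 * (Finset.univ.filter (fun i : ZMod q => L q m i ω ∈ T2 i)).card := by
        intro h5; exact h2 (by rw [hH2, mem_filter]; exact ⟨mem_univ _, h5⟩)
      omega
    have hgood : ω ∈ Good m T2 := by
      unfold Good; rw [mem_filter]; exact ⟨mem_univ _, hDge⟩
    have hZ : ((D T2 ω).card : ℝ) / (2 * s T {ω}) ≤ Z T (D T2 ω) ω a := by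
      by_contra hlt
      push Not at hlt
      exact h3 (by rw [hBad, mem_filter]; exact ⟨hgood, h, hlt⟩)
    have hs : s T {ω} ≤ Real.exp (-((l : ℝ) / 2)) := by
      apply s_singleton_le
      intro f hf
      apply h1
      rw [hH1, mem_biUnion]
      exact ⟨f, mem_univ _, by rw [mem_filter]; exact ⟨mem_univ _, hf⟩⟩
    have hspos : 0 < s T {ω} :=
      lt_of_lt_of_le (Real.exp_pos _) (s_lower hm T _ (by simpa using hm1))
    have hsinv : Real.exp ((l : ℝ) / 2) ≤ (s T {ω})⁻¹ := by
      rw [le_inv_comm₀ (Real.exp_pos _) hspos, ← Real.exp_neg]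
      exact hs
    have hDr : (q : ℝ) ≤ 2 * (D T2 ω).card := by exact_mod_cast hDge
    have hZ2 : (q : ℝ) / 4 * Real.exp ((l : ℝ) / 2) ≤ Z T (D T2 ω) ω a := by
      refine le_trans ?_ hZ
      have h5 : ((D T2 ω).card : ℝ) / (2 * s T {ω}) = ((D T2 ω).card / 2) * (s T {ω})⁻¹ := by
        field_simp
      rw [h5]
      apply mul_le_mul _ hsinv (Real.exp_pos _).le (by positivity)
      linarith
    have hPsum : Real.exp ((l : ℝ) / 2) / 16 ≤ ∑ i ∈ D T2 ω, Pr T m a i (L q m i ω) := by
      have h5 : ∑ i ∈ D T2 ω, (w T m i (L q m i ω) a -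
          (if 2 * (q : ℝ) < W T m i a then Real.exp (2 * m * l : ℝ) else 0)) / (2 * q) ≤
          ∑ i ∈ D T2 ω, Pr T m a i (L q m i ω) :=
        Finset.sum_le_sum (fun i _ => Pr_ge hm T a i (L q m i ω))
      refine le_trans ?_ h5
      rw [← Finset.sum_div, Finset.sum_sub_distrib, le_div_iff₀ (by positivity)]
      have h6 : ∑ i ∈ D T2 ω, (if 2 * (q : ℝ) < W T m i a then Real.exp (2 * m * l : ℝ) else 0) ≤
          Real.exp (2 * m * l : ℝ) * C2 l m := by
        calc ∑ i ∈ D T2 ω, (if 2 * (q : ℝ) < W T m i a then Real.exp (2 * m * l : ℝ) else 0)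
            ≤ ∑ i : ZMod q, (if 2 * (q : ℝ) < W T m i a then Real.exp (2 * m * l : ℝ) else 0) := by
              apply Finset.sum_le_sum_of_subset_of_nonneg (Finset.subset_univ _)
              intro i _ _
              split_ifs
              · exact (Real.exp_pos _).le
              · exact le_refl _
          _ = Real.exp (2 * m * l : ℝ) *
              ((Finset.univ.filter (fun i : ZMod q => 2 * (q : ℝ) < W T m i a)).card : ℝ) := by
              rw [← Finset.sum_filter, Finset.sum_const, nsmul_eq_mul, mul_comm]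
          _ ≤ _ := mul_le_mul_of_nonneg_left ha1 (Real.exp_pos _).le
      have h7 : ∑ i ∈ D T2 ω, w T m i (L q m i ω) a = Z T (D T2 ω) ω a := rfl
      rw [h7]
      have h8 : (1 : ℝ) ≤ Real.exp ((l : ℝ) / 2) := Real.one_le_exp (by positivity)
      have h9 : (q : ℝ) / 8 ≤ (q : ℝ) / 8 * Real.exp ((l : ℝ) / 2) := by nlinarith
      nlinarith
    calc ∏ i ∈ D T2 ω, (1 - Pr T m a i (L q m i ω))
        ≤ ∏ i ∈ D T2 ω, Real.exp (-Pr T m a i (L q m i ω)) := by
          apply Finset.prod_le_prod
          · intro i _; linarith [Pr_le_one hm T a i (L q m i ω)]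
          · intro i _
            have := Real.add_one_le_exp (-Pr T m a i (L q m i ω))
            linarith
      _ = Real.exp (-∑ i ∈ D T2 ω, Pr T m a i (L q m i ω)) := by
          rw [← Real.exp_sum, Finset.sum_neg_distrib]
      _ ≤ η := by
          rw [hη]; apply Real.exp_le_exp.2; linarith
  have hηpos : 0 ≤ η := (Real.exp_pos _).le
  calc ∑ ω : Fin m × ZMod q, I T {ω} a * ∏ i ∈ D T2 ω, (1 - Pr T m a i (L q m i ω))
      ≤ ∑ ω : Fin m × ZMod q, (((if ω ∈ H1 then (1 : ℝ) else 0) + (if ω ∈ H2 then (1 : ℝ) else 0) +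
          (if ω ∈ Bad then (1 : ℝ) else 0)) + η) := by
        apply Finset.sum_le_sum
        intro ω _
        have h0 := hterm1 ω
        by_cases h1 : ω ∈ H1
        · rw [if_pos h1]
          have : (0 : ℝ) ≤ (if ω ∈ H2 then (1 : ℝ) else 0) := by split_ifs <;> norm_num
          have : (0 : ℝ) ≤ (if ω ∈ Bad then (1 : ℝ) else 0) := by split_ifs <;> norm_num
          linarith
        by_cases h2 : ω ∈ H2
        · rw [if_neg h1, if_pos h2]
          have : (0 : ℝ) ≤ (if ω ∈ Bad then (1 : ℝ) else 0) := by split_ifs <;> norm_num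
          linarith
        by_cases h3 : ω ∈ Bad
        · rw [if_neg h1, if_neg h2, if_pos h3]
          linarith
        rw [if_neg h1, if_neg h2, if_neg h3]
        have := hterm2 ω h1 h2 h3
        linarith
    _ = (H1.card + H2.card + Bad.card) + m * q * η := by
        rw [Finset.sum_add_distrib, Finset.sum_add_distrib, Finset.sum_add_distrib]
        simp [Fintype.card_prod, ZMod.card]
    _ ≤ (l + 2) * q + m * q * η := by linarith

end Pool.Agent.H42.TreeCover
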